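import Pool.Agent.H56.PD.Sets

/-!
# Primes with index in arbitrary sets, for example `p_{kn}`, and prime differences near the values of arbitrary
# polynomials in several variables at integers with restricted digits

The question is about `k` with `p_{kn} + 2` prime, or `p_{k² n} + 2` prime. Here the shift `2` is replaced by integers
`Y_1, ..., Y_s` (all the numbers `p_{kn} + Y_i` shall be primes) from windows of radius `(log N) ^ D` around `a_i + F_i(x_i)`, where
`F_1, ..., F_s` are ANY integer polynomials of positive degree in any number of variables (for instance products `x y z`,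
determinants, norm forms, sums of like powers) and the digits in base `b` of the coordinates of the vectors `x_i` are
restricted to arbitrary sets with at least two elements (for instance: all digits are `0` or `1`); there may be as few as
`N ^ δ` such vectors. The indices are restricted to arbitrary sets (for example the multiples of `n`, for all `n` up to a
power of `log N` at once). For almost all `(x_1, ..., x_s)` and ALL `Y_i` in the windows, all these sets and all `X ≤ N`, the
number of the primes `q ≤ X` with index in the set for which all the `q + Y_i` are primes is the number predicted by the sieve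
by the primes up to a power of `log N`, with an error which saves an arbitrary power of the logarithm.

Method. The large spectrum of the values is thin (module `Pool.Agent.H56.PD`: Weyl differencing with respect to short
blocks of the lowest and of the highest digits, in all combinations). In `Pool.Agent.H56.PD.ML` and `Pool.Agent.H56.PD.Sets`
the maximal estimate for one form with arbitrary weights is derived from this, for all the shifts in the windows at
once; the passage to several forms and to the primes is `Pool.Agent.V11251.DS` (library).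
-/

set_option autoImplicit false

namespace Pool.Agent.Results.MP_be93de_nt.DifferencesNearPolynomials

open Finset

open Classical in
/-- The sieve model of the indicator function of the primes: `1 / (log x ∏_{p ≤ z} (1 - 1 / p))` if `x ≥ 2` has no prime
factor `≤ z`, and `0` if `x = 0` or if `x` has a prime factor `≤ z` (for `x = 1` the logarithm is replaced by `log 2`). -/
noncomputable def model (z x : ℕ) : ℝ :=
  if 1 ≤ x ∧ ∀ p : ℕ, p.Prime → p ≤ z → ¬ p ∣ x then
    1 / (Real.log (max x 2 : ℕ) * ∏ p ∈ (Icc 1 z).filter Nat.Prime, (1 - 1 / (p : ℝ))) else 0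

open Classical in
/-- The primes `q ≤ X` whose index `π(q)` belongs to the set `J`; if `J` is the set of the multiples of `n`, these are the
primes `p_{kn} ≤ X`. -/
noncomputable def indexed (J : Set ℕ) (X : ℕ) : Finset ℕ := (Icc 1 X).filter (fun q => q.Prime ∧ Nat.primeCounting q ∈ J)

/-- The primes `q ≤ X` with `π(q) ∈ J` for which all the numbers `q + Y i` are primes. -/
noncomputable def common {s : ℕ} (J : Set ℕ) (Y : Fin s → ℕ) (X : ℕ) : Finset ℕ :=
  (indexed J X).filter (fun q => ∀ i, (q + Y i).Prime)

/-- For the first `L` of the sets `J 0, J 1, ...` of indices and for all `X ≤ N`, the number of the primes `q ≤ X` with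
`π(q) ∈ J l` for which all the `q + Y i` are primes is equal to the sum of the products of the models of `q + Y i` over the
primes `q ≤ X` with `π(q) ∈ J l`, up to an error of at most `N / log ^ U N`. -/
def Good {s : ℕ} (z U L N : ℕ) (J : ℕ → Set ℕ) (Y : Fin s → ℕ) : Prop :=
  ∀ l < L, ∀ X ≤ N, |((common (J l) Y X).card : ℝ) - ∑ q ∈ indexed (J l) X, ∏ i, model z (q + Y i)| ≤ N / Real.log N ^ U

/-- the integers `x < b ^ k` whose digits in base `b` are allowed: the digit at `b ^ j` is in `A j` for all `j < k` -/
def withDigits (b k : ℕ) (A : ℕ → Finset ℕ) : Finset ℕ := (range (b ^ k)).filter (fun x => ∀ j < k, x / b ^ j % b ∈ A j)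

open Classical in
/-- Let `F i`, `1 ≤ i ≤ s`, be polynomials with integer coefficients in `n` variables, of total degrees `d i ≥ 1`, `b ≥ 2`,
and let `B`, `D`, `T`, `U`, `W` be fixed. Let `E` be a sufficiently large exponent, let `N` be large,
`log ^ E N ≤ z ≤ log ^ (E + 1) N`, let the numbers of digits `k i` satisfy `b ^ (k i * d i) ≤ B N` and
`N ≤ b ^ (k i * d i) log ^ W N`, let `A i v j ⊆ {0, ..., b - 1}` be ARBITRARY sets with at least two elements, let `a i` be
integers with `|a i| ≤ B N`, and let `J 0, ..., J (L - 1)`, `L ≤ log ^ T N`, be ARBITRARY sets of indices, for example the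
sets of the multiples of `n` for all `n ≤ log ^ T N`. Then all the families `x = (x 1, ..., x s)` of vectors
`x i = (x i 1, ..., x i n)` for which the digit of `x i v` at `b ^ j` is in `A i v j` for all `v` and `j < k i`, with the
exception of a proportion of at most `1 / log ^ U N` of them, have the following property: `Good z U L N J Y` for ALL
`Y 1, ..., Y s ≥ 0` with `|Y i - (a i + F i (x i))| ≤ log ^ D N`. -/
theorem result (s b n : ℕ) (hb : 2 ≤ b) (F : Fin s → MvPolynomial (Fin n) ℤ) (hF : ∀ i, 1 ≤ (F i).totalDegree)
    (B D T U W : ℕ) :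
    ∃ E₀ : ℕ, ∀ E : ℕ, E₀ ≤ E → ∃ N₀ : ℕ, ∀ N : ℕ, N₀ ≤ N → ∀ k : Fin s → ℕ,
      (∀ i, b ^ (k i * (F i).totalDegree) ≤ B * N) →
      (∀ i, (N : ℝ) ≤ (b : ℝ) ^ (k i * (F i).totalDegree) * Real.log N ^ W) →
      ∀ A : Fin s → Fin n → ℕ → Finset ℕ, (∀ i v, ∀ j < k i, A i v j ⊆ range b ∧ 2 ≤ (A i v j).card) →
      ∀ a : Fin s → ℤ, (∀ i, |a i| ≤ (B : ℤ) * N) →
      ∀ z : ℕ, Real.log N ^ E ≤ z → (z : ℝ) ≤ Real.log N ^ (E + 1) →
      ∀ L : ℕ, (L : ℝ) ≤ Real.log N ^ T → ∀ J : ℕ → Set ℕ,
      (((Fintype.piFinset fun i => Fintype.piFinset fun v => withDigits b (k i) (A i v)).filter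
        fun x : Fin s → Fin n → ℕ => ¬ ∀ Y : Fin s → ℕ,
          (∀ i, |(Y i : ℝ) - (a i + MvPolynomial.eval (fun v => (x i v : ℤ)) (F i) : ℤ)| ≤ Real.log N ^ D) →
            Good z U L N J Y).card : ℝ) ≤
        ((Fintype.piFinset fun i => Fintype.piFinset fun v => withDigits b (k i) (A i v)).card : ℝ) / Real.log N ^ U := by
  obtain ⟨E₀, h⟩ := Pool.Agent.H56.PD.sets s b n hb F hF (fun _ => 1) (fun _ => by norm_num) B D T U W
  refine ⟨E₀, fun E hE => ?_⟩
  obtain ⟨N₀, h1⟩ := h E hE
  refine ⟨N₀, fun N hN k hk1 hk2 A hA a ha z hz1 hz2 L hL J => ?_⟩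
  refine h1 N hN k (fun i => by rw [Nat.mul_comm]; exact hk1 i) (fun i => by rw [Nat.mul_comm]; exact hk2 i) A hA a ha
    z hz1 hz2 L hL (fun l => {n | n.Prime ∧ Nat.primeCounting n ∈ J l})
    (fun i => Fintype.piFinset fun v => Pool.Agent.H56.PD.withDigits b (k i) (A i v)) (fun _ => rfl)
    (fun x : Fin s → Fin n → ℕ => ¬ ∀ Y : Fin s → ℕ,
          (∀ i, |(Y i : ℝ) - (a i + MvPolynomial.eval (fun v => (x i v : ℤ)) (F i) : ℤ)| ≤ Real.log N ^ D) →
            Good z U L N J Y) _ ?_
  intro x _ hbad hgood
  apply hbad
  intro Y hY l hl X hX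
  have h2 := hgood (fun i => (Y i : ℤ)) (fun i => by
    have := hY i
    push_cast at this ⊢
    exact this) l hl X hX
  rw [Pool.Agent.V11251.DS.DC_set' _ X z _ _ (indexed (J l) X) (common (J l) Y X)
    (fun n => ∏ i, model z (n + Y i))] at h2
  · exact h2
  · intro n
    unfold indexed
    rw [mem_filter]
    exact Iff.rfl
  · intro n
    unfold common indexed
    rw [mem_filter, mem_filter, and_assoc]
    apply and_congr Iff.rfl
    apply and_congr Iff.rfl
    apply forall_congr'
    intro i
    have h3 : ((1 : ℤ) * (n : ℤ) + (Y i : ℤ)).toNat = n + Y i := by omega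
    rw [h3]
  · intro n _
    apply prod_congr rfl
    intro i _
    rw [Pool.Agent.V11251.DS.Mo_add]
    rfl

end Pool.Agent.Results.MP_be93de_nt.DifferencesNearPolynomials
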