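import Pool.Agent.H50.IC.Gap

/-!
# Patterns of primes beginning at `p_i` for `i` in EVERY residue class modulo `n` at once, in particular at `p_{kn}`

Q1 asks for multiples `kn` of `n` such that `p_{kn} + 2` is prime, so that `p_{kn}`, `p_{kn + 1}` are consecutive primes
with difference `2`. Here the difference `2` is replaced by the elements of a positive proportion of all differences, and
more generally of all sets `D` of `k` differences.

1. Let `n`, `k` be given. A positive proportion of the sets `D` of `k` integers from `1` to `H` has the property that for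
EVERY residue class `j` modulo `n` there are at least `x / (log x) ^ B` indices `i ≡ j (mod n)` with `p_i ≤ x` such that
the primes which follow `p_i` are `p_i + d`, `d ∈ D`; here `B` depends only on `n` and `k`. For `k = 1`: for a positive
proportion of the `h ≤ H` and for every class `j` modulo `n` (for instance for the multiples of `n`) there are that many
`i ≡ j (mod n)` with `p_{i+1} = p_i + h`. In addition the differences can be chosen such that the fractional parts of the
values of given nonlinear polynomials at ALL the differences of the `k + 1` primes are near given targets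
(for instance `‖√2 h² - θ‖ < ε`).

2. The same in every dense set `F` of shifts (instead of the set of all shifts), with uniform constants, with other
primes only at a distance of more than `M`, for any number of residue classes `a (mod q)` and of `x` simultaneously, and
for all subsets with at most `k + 1` elements of a set `W ⊆ F` at once. For `F` contained in the multiples of `q` all the primes of
the pattern are in the class `a` modulo `q`.

Method. (i) From the theorem of the type of Maynard and Tao for exact sets of prime values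
(`Pool.Agent.Y827.RO.lamE0` of the starting library, forms with bounded slopes and uniform exponents) and congruences: in
each set of `n₀(k)` shifts in one class modulo the small primes some subset with more than `k` elements is the exact set
of primes, at least `x / (log x) ^ B` times for EVERY large `x`; Ramsey's theorem for all sizes up to `n₀` and a reserve of
larger shifts turn this into: all the subsets with at most `k + 1` elements of some `W` (`Pool.Agent.H50.IC`).
(ii) Library module `N914.IX`: colour the sets of `k + n` shifts by the class modulo `n` of the number of smaller primes;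
in a homogeneous set the pattern is moved to any class of indices by `0 ≤ i < n` smaller elements.
(iii) Library modules `N914.CP`, `N914.WU`: the graph of the differences in a set with a Fourier-uniform minorant has a
positive proportion of cliques in every dense set.
-/

set_option autoImplicit false

namespace Pool.Agent.Results.MP_be93de_nt.EveryIndexClass

open Finset Filter Polynomial

/-- the `i`-th prime: `p 1 = 2`, `p 2 = 3`, `p 3 = 5`, ... -/
noncomputable def p (i : ℕ) : ℕ := Nat.nth Nat.Prime (i - 1)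

/-- the primes after `p i`, up to `p i + max D`, are exactly the numbers `p i + d`, `d ∈ D` (for `D = {h}`, `h ≥ 1`, this
means that the next prime `p (i + 1)` is `p i + h`) -/
def Follow (i : ℕ) (D : Finset ℕ) : Prop :=
  ∀ y : ℕ, p i < y → y ≤ p i + D.sup id → (y.Prime ↔ ∃ d ∈ D, y = p i + d)

/-- the number of the indices `i ≥ 1`, `i ≡ j (mod n)`, `p i ≤ x`, with `Follow i D` -/
noncomputable def following (n j : ℕ) (D : Finset ℕ) (x : ℝ) : ℕ :=
  {i : ℕ | 1 ≤ i ∧ i ≡ j [MOD n] ∧ (p i : ℝ) ≤ x ∧ Follow i D}.ncard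

/-- the primes from `m + min T - M` to `m + max T + M` are exactly the numbers `m + t`, `t ∈ T` -/
def Exact (M m : ℕ) (T : Finset ℕ) : Prop :=
  ∀ y : ℕ, (∃ t ∈ T, m + t ≤ y + M) → (∃ t ∈ T, y ≤ m + t + M) → (y.Prime ↔ ∃ t ∈ T, y = m + t)

/-- the number of the `m ≤ x`, `m ≡ a (mod q)`, such that the primes from `m + min T - M` to `m + max T + M` are exactly
the `m + t`, `t ∈ T`, and the index `π (m + t)` of the first of them, `t = min T`, is `≡ j (mod n)` -/
noncomputable def hits (n j q a M : ℕ) (T : Finset ℕ) (x : ℝ) : ℕ :=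
  {m : ℕ | (m : ℝ) ≤ x ∧ m ≡ a [MOD q] ∧ Exact M m T ∧
    ∃ t ∈ T, (∀ u ∈ T, t ≤ u) ∧ Nat.primeCounting (m + t) ≡ j [MOD n]}.ncard

/-- all the nontrivial integral combinations of the polynomials have an irrational coefficient in a degree `≥ 2` (this is
true if there are no polynomials, `r = 0`) -/
def Nonlinear {r : ℕ} (P : Fin r → ℝ[X]) : Prop :=
  ∀ h : Fin r → ℤ, h ≠ 0 → ∃ i, 2 ≤ i ∧ Irrational ((∑ l, (h l : ℝ) • P l).coeff i)

/-- for all `l` the number `P_l(d) - θ_l` has a distance less than `ε` to an integer -/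
def Near {r : ℕ} (P : Fin r → ℝ[X]) (θ : Fin r → ℝ) (ε : ℝ) (d : ℕ) : Prop :=
  ∀ l, ∃ m : ℤ, |(P l).eval (d : ℝ) - θ l - m| < ε

open Classical in
/-- **Patterns of consecutive primes at indices in every residue class modulo `n`.** For all `n ≥ 1`, `k` there is `B`
such that for all real polynomials `P_1, ..., P_r` (`r = 0` is allowed) all of whose nontrivial integral combinations have
an irrational coefficient in a degree `≥ 2` and for all `ε > 0`:

1. For all `L`, `R`, `M`, `δ > 0` there are `c > 0` and `N₀` such that for all `N ≥ N₀` and `Q` there is `x₀` with: for all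
`R` residue classes `a_ρ (mod q_ρ)`, `q_ρ ≤ Q`, and all `x_ρ ≥ x₀`, for EVERY set `F` of at least `δ N` integers
`0 ≤ v < N`, with `a_ρ + v` prime to `q_ρ`, and all targets `θ`, at least `c N ^ L` of the sets `W ⊆ F` with `L` elements
are such that the differences of their elements are near the targets and such that for all `ρ`, for ALL `T ⊆ W` with at
least one and at most `k + 1` elements and for ALL classes `j` modulo `n` there are at least `x_ρ / (log x_ρ) ^ B`
integers `m ≤ x_ρ`, `m ≡ a_ρ (mod q_ρ)`, for which the `m + t`, `t ∈ T`, are consecutive primes, without other primes at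
a distance at most `M` before or after, with the index of the first of them `≡ j (mod n)`.

2. There are `c > 0`, `H₀` such that for all `H ≥ H₀`: for all large `x` and all targets at least `c H ^ k` of the sets
`D` of `k` integers from `1` to `H` are such that all the differences of elements of `D ∪ {0}` are near the targets and
for ALL classes `j` modulo `n` at least `x / (log x) ^ B` indices `i ≡ j (mod n)`, `p_i ≤ x`, are such that the primes
which follow `p_i` are `p_i + d`, `d ∈ D`; and for all targets the same is true for at least `c H ^ k` sets `D` which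
do not depend on `x`, for arbitrarily large `x`. -/
theorem result (n k : ℕ) (hn : 1 ≤ n) : ∃ B : ℕ,
    ∀ (r : ℕ) (P : Fin r → ℝ[X]), Nonlinear P → ∀ ε : ℝ, 0 < ε →
    (∀ (L R M : ℕ) (δ : ℝ), 0 < δ → ∃ c : ℝ, 0 < c ∧ ∃ N₀ : ℕ, ∀ N : ℕ, N₀ ≤ N → ∀ Q : ℕ, ∃ x₀ : ℝ,
      ∀ (q a : Fin R → ℕ) (x : Fin R → ℝ) (F : Finset ℕ),
      (∀ ρ, 1 ≤ q ρ ∧ q ρ ≤ Q ∧ x₀ ≤ x ρ) → F ⊆ range N → δ * N ≤ F.card →
      (∀ ρ, ∀ v ∈ F, (a ρ + v).Coprime (q ρ)) → ∀ θ : Fin r → ℝ,
      c * (N : ℝ) ^ L ≤ (((powersetCard L F).filter (fun W =>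
        (∀ u ∈ W, ∀ v ∈ W, u < v → Near P θ ε (v - u)) ∧
        ∀ ρ, ∀ T ⊆ W, 1 ≤ T.card → T.card ≤ k + 1 → ∀ j : ℕ,
          x ρ / Real.log (x ρ) ^ B ≤ (hits n j (q ρ) (a ρ) M T (x ρ) : ℝ))).card : ℝ)) ∧
    ∃ c : ℝ, 0 < c ∧ ∃ H₀ : ℕ, ∀ H : ℕ, H₀ ≤ H →
      (∃ x₀ : ℝ, ∀ x : ℝ, x₀ ≤ x → ∀ θ : Fin r → ℝ,
        c * (H : ℝ) ^ k ≤ (((powersetCard k (Icc 1 H)).filter (fun D =>
          (∀ u ∈ insert 0 D, ∀ v ∈ insert 0 D, u < v → Near P θ ε (v - u)) ∧
          ∀ j : ℕ, x / Real.log x ^ B ≤ (following n j D x : ℝ))).card : ℝ)) ∧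
      ∀ θ : Fin r → ℝ, c * (H : ℝ) ^ k ≤ (((powersetCard k (Icc 1 H)).filter (fun D =>
        (∀ u ∈ insert 0 D, ∀ v ∈ insert 0 D, u < v → Near P θ ε (v - u)) ∧
        ∃ᶠ x : ℝ in atTop, ∀ j : ℕ, x / Real.log x ^ B ≤ (following n j D x : ℝ))).card : ℝ) := by
  obtain ⟨B, hB0, hB1⟩ := Pool.Agent.H50.IC.rich1 k n hn
  have hnear : ∀ {r : ℕ} (P : Fin r → ℝ[X]) (θ : Fin r → ℝ) (ε : ℝ) (u v : ℕ), u < v →
      (∀ l, ∃ m : ℤ, |(P l).eval ((v : ℝ) - u) - θ l - m| < ε) → Near P θ ε (v - u) := by
    intro r P θ ε u v huv h l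
    obtain ⟨m, hm⟩ := h l
    refine ⟨m, ?_⟩
    rw [Nat.cast_sub huv.le]
    exact hm
  refine ⟨B + 1, fun r P hP ε hε => ⟨?_, ?_⟩⟩
  · intro L R M δ hδ
    obtain ⟨c, hc, N₀, h⟩ := Pool.Agent.H50.IC.poly (hB1 L R M) r P hP δ hδ ε hε
    refine ⟨c, hc, N₀, fun N hN Q => ?_⟩
    obtain ⟨x₀, hx₀⟩ := h N hN Q
    refine ⟨x₀, fun q a x F h1 h2 h3 h4 θ => (hx₀ q a x F ⟨h1, h2, h3, h4⟩ θ).trans ?_⟩
    rw [Nat.cast_le]
    refine card_le_card fun W hW => ?_
    rw [mem_filter] at hW ⊢
    exact ⟨hW.1, fun u hu v hv huv => hnear P θ ε u v huv (hW.2.1 u hu v hv huv), hW.2.2⟩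
  · obtain ⟨c, hc, H₀, h⟩ := Pool.Agent.H50.IC.gapsK n k B (hB0 (k + 1) 1 0) r P hP ε hε
    refine ⟨c, hc, H₀, fun H hH => ?_⟩
    obtain ⟨x₀, hx₀⟩ := h H hH
    have key : ∀ x : ℝ, x₀ ≤ x → ∀ θ : Fin r → ℝ,
        c * (H : ℝ) ^ k ≤ (((powersetCard k (Icc 1 H)).filter (fun D =>
          (∀ u ∈ insert 0 D, ∀ v ∈ insert 0 D, u < v → Near P θ ε (v - u)) ∧
          ∀ j : ℕ, x / Real.log x ^ (B + 1) ≤ (following n j D x : ℝ))).card : ℝ) := by
      intro x hx θ
      refine (hx₀ x hx θ).trans ?_
      rw [Nat.cast_le]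
      refine card_le_card fun D hD => ?_
      rw [mem_filter] at hD ⊢
      exact ⟨hD.1, fun u hu v hv huv => hnear P θ ε u v huv (hD.2.1 u hu v hv huv), hD.2.2⟩
    refine ⟨⟨x₀, key⟩, fun θ => ?_⟩
    have h2 : ∀ᶠ x : ℝ in atTop, c * (H : ℝ) ^ k ≤ (((powersetCard k (Icc 1 H)).filter (fun D =>
        (∀ u ∈ insert 0 D, ∀ v ∈ insert 0 D, u < v → Near P θ ε (v - u)) ∧
        ∀ j : ℕ, x / Real.log x ^ (B + 1) ≤ (following n j D x : ℝ))).card : ℝ) :=
      (eventually_ge_atTop x₀).mono fun x hx => key x hx θ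
    have h3 := Pool.Agent.H50.IC.freq_family (powersetCard k (Icc 1 H))
      (fun (x : ℝ) (D : Finset ℕ) => ∀ j : ℕ, x / Real.log x ^ (B + 1) ≤ (following n j D x : ℝ))
      (fun D => ∀ u ∈ insert 0 D, ∀ v ∈ insert 0 D, u < v → Near P θ ε (v - u)) (c * (H : ℝ) ^ k) h2
    exact h3

end Pool.Agent.Results.MP_be93de_nt.EveryIndexClass
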