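import Pool.Agent.H96.FL.G
import Pool.Agent.H96.FL.H
import Pool.Agent.H96.LM.E

/-!
# Primes `p_{kn}` with index a multiple of `n` and with `p_{kn} + h` prime, `h` near `α v(x) + g(x) + β`

The question asks for which `k` the number `p_{kn} + 2` is prime. Here the difference `2` is replaced by the integers `h`
in intervals of every length around the real numbers `α v(x) + g(x) + β`. Here `v` is any finite family of integers whose
additive energy of some order is as small as possible up to logarithms (it may consist of `N ^ ε` integers only; for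
instance the values of a fixed polynomial at the members of a dense set), `g` is an ARBITRARY real function, and
`β` is an arbitrary real number which may depend on everything else. For given `v` and `g` the
result holds for all real numbers `α` outside a small set: it meets every interval of length `1` in a set which is covered
by `log ^ C N` intervals of length `2 / log ^ D N`, `D` arbitrary, with `C` not depending on `D`. Consequently the `α` for
which the result fails at infinitely many scales `N = 2 ^ i` form a set of Hausdorff dimension at most `σ`, where `σ > 0`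
is arbitrary.

Some `α` must be excluded: `g` is arbitrary, so that for instance `α v + g` may vanish identically.

Proof (`Pool.Agent.H96.FL`): the function `G(h) = |∑_m 1_A(m) (1_P - model)(m + h)| ^ 2` has an absolutely convergent
Fourier series, with a sum bounded by the product of the squares of the `L ^ 2`-norms; the mean value of `G` over all `h`
is small because the primes minus their sieve model have small exponential sums. The sum of `G` over short intervals
around the points `α v(x) + g(x) + β` is bounded with the kernel of Fejér by a weighted sum of exponential sums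
`∑_x e(r (α v(x) + g(x)) / Q)`; the low frequencies `r` are controlled by the mean value of `G`. If the sum over the high
frequencies is large for `α = α_1, ..., α_J`, where the distances of the `α_j` are at least `1 / log ^ D N`, then `J` is
bounded, by Hölder's inequality and the large sieve inequality for families of small energy (`Pool.Agent.H96.FP`).

From Mathlib: `Nat.nth Nat.Prime (n - 1)`: the `n`-th prime; `ℤ[X]`: the polynomials with integer coefficients;
`dimH`: the Hausdorff dimension; `∃ᶠ i in atTop, P i`: `P i` holds for infinitely many natural numbers `i`;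
`∀ᶠ N in atTop, P N`: `P N` holds for all large `N`.
-/

set_option autoImplicit false

namespace Pool.Agent.Results.MP_be93de_nt.GenericRealFactors

open Finset Polynomial Filter
open scoped NNReal

/-- the `n`-th prime, `n ≥ 1` -/
noncomputable def p (n : ℕ) : ℕ := Nat.nth Nat.Prime (n - 1)

/-- The additive energy of order `s` of a finite family of integers: the number of the solutions of
`v (i 1) + ... + v (i s) = v (j 1) + ... + v (j s)`. -/
noncomputable def energy (s : ℕ) {ι : Type} [Fintype ι] (v : ι → ℤ) : ℕ :=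
  Nat.card {q : (Fin s → ι) × (Fin s → ι) // ∑ j, v (q.1 j) = ∑ j, v (q.2 j)}

open Classical in
/-- The sieve model of the indicator function of the primes: `1 / (log x ∏_{q ≤ z} (1 - 1 / q))` if `x ≥ 2` has no prime
factor `≤ z`, and `0` if `x = 0` or if `x` has a prime factor `≤ z` (for `x = 1` the logarithm is replaced by `log 2`). -/
noncomputable def model (z x : ℕ) : ℝ :=
  if 1 ≤ x ∧ ∀ q : ℕ, q.Prime → q ≤ z → ¬ q ∣ x then
    1 / (Real.log (max x 2 : ℕ) * ∏ q ∈ (Icc 1 z).filter Nat.Prime, (1 - 1 / (q : ℝ))) else 0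

/-- the number of the `k ∈ K` for which `p_{kn} + h` is prime -/
noncomputable def count (n : ℕ) (K : Finset ℕ) (h : ℤ) : ℕ := (K.filter (fun k => ((p (k * n) : ℤ) + h).toNat.Prime)).card

/-- the prediction: the sum of the model over the numbers `p_{kn} + h`, `k ∈ K` (those which are positive) -/
noncomputable def expected (z n : ℕ) (K : Finset ℕ) (h : ℤ) : ℝ := ∑ k ∈ K, model z ((p (k * n) : ℤ) + h).toNat

/-- The difference `h` is good: the number of the `k ∈ K` for which `p_{kn} + h` is prime is as predicted, up to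
`N / log ^ U N`. -/
def Good (U N z n : ℕ) (K : Finset ℕ) (h : ℤ) : Prop := |(count n K h : ℝ) - expected z n K h| ≤ N / Real.log N ^ U

/-- The real number `y` is bad: for some positive integer `n ≤ log ^ T N` and some length `H`, `1 ≤ H ≤ N`, more than
`H / log ^ U N` integers `h` with `|h - y| ≤ H` and `|h| ≤ B N` are not good with the set `K n` of multipliers. (If `y` is
not bad then ALL integers `h` with `|h - y| < log ^ U N`, `|h| ≤ B N`, are good, for all `n ≤ log ^ T N`.) -/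
def Bad (B T U N z : ℕ) (K : ℕ → Finset ℕ) (y : ℝ) : Prop :=
  ∃ n : ℕ, 1 ≤ n ∧ (n : ℝ) ≤ Real.log N ^ T ∧ ∃ H : ℝ, 1 ≤ H ∧ H ≤ N ∧
    H / Real.log N ^ U < ({h : ℤ | |(h : ℝ) - y| ≤ H ∧ |h| ≤ B * N ∧ ¬ Good U N z n (K n) h}.ncard : ℝ)

/-- the sets `K n` of multipliers, `1 ≤ n ≤ log ^ T N`: the multipliers are positive, and `p_{kn} ≤ B N` for `k ∈ K n` -/
def Adm (B T N : ℕ) (K : ℕ → Finset ℕ) : Prop :=
  ∀ n : ℕ, 1 ≤ n → (n : ℝ) ≤ Real.log N ^ T → ∀ k ∈ K n, 1 ≤ k ∧ p (k * n) ≤ B * N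

/-- Every interval of length `1` meets `E` in a set which is covered by at most `n` intervals of length `2 δ`. -/
def Small (E : Set ℝ) (n δ : ℝ) : Prop :=
  ∀ x : ℝ, ∃ T : Finset ℝ, (T.card : ℝ) ≤ n ∧ ∀ α ∈ E, x ≤ α → α ≤ x + 1 → ∃ t ∈ T, |α - t| ≤ δ

lemma p_pos (n : ℕ) : 1 ≤ p n := (Nat.prime_nth_prime (n - 1)).pos

lemma p_inj {n n' : ℕ} (h1 : 1 ≤ n) (h2 : 1 ≤ n') (h : p n = p n') : n = n' := by
  have h3 := Nat.nth_injective Nat.infinite_setOfPred_prime h
  omega

open Classical in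
lemma dif_eq (z n : ℕ) (hn : 1 ≤ n) (K : Finset ℕ) (hK : ∀ k ∈ K, 1 ≤ k) (h : ℤ) :
    Pool.Agent.H96.FL.Dif z (K.image fun k => p (k * n)) h = (count n K h : ℝ) - expected z n K h := by
  unfold Pool.Agent.H96.FL.Dif count expected
  rw [sum_image, sum_sub_distrib]
  · congr 1
    rw [card_filter]
    push_cast
    rfl
  · intro k hk k' hk' hkk
    have h7 := hK k hk
    have h8 := hK k' hk'
    exact Nat.eq_of_mul_eq_mul_right hn (p_inj (Nat.mul_pos h7 hn) (Nat.mul_pos h8 hn) hkk)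

open Classical in
/-- Let `s`, `B ≥ 1`, `C₀`, `T`, `U` be natural numbers.

(1) There is `C` such that for every `D` there is `E₀` such that for every `E` and all large `N` the following holds. Let
`log ^ E₀ N ≤ z ≤ log ^ E N`, let `v : Z → ℤ` be ANY finite family of integers at most `B N` in absolute value, whose
additive energy of order `s` is at most `log ^ C₀ N` times `|Z| ^ (2 s) / N` (the smallest possible value up to the
logarithms), let `g : Z → ℝ` be ARBITRARY, and let `K n`, `n ≤ log ^ T N`, be ARBITRARY sets of positive integers `k` with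
`p_{kn} ≤ B N`. There is a set `𝓔` of real numbers which meets every interval of length `1` in a set covered by
`log ^ C N` intervals of length `2 / log ^ D N`, and for all real numbers `α ∉ 𝓔` and ALL real numbers `β` the following
holds for all `x ∈ Z` but a proportion of `1 / log ^ U N`: for all positive integers `n ≤ log ^ T N` and all `H` with
`1 ≤ H ≤ N`, all but `H / log ^ U N` of the integers `h` with `|h - (α v(x) + g(x) + β)| ≤ H`, `|h| ≤ B N`, are good (thus
ALL of them if `H < log ^ U N`): the number of the `k ∈ K n` for which `p_{kn} + h` is prime is the sum over `k ∈ K n` of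
the sieve model of `p_{kn} + h`, up to `N / log ^ U N`.

(2) Let `F` be a polynomial with integer coefficients of degree at least `1` and `σ > 0`. There is `E₀` such that the
following holds for every `E` and every function `z` with `log ^ E₀ N ≤ z(N) ≤ log ^ E N` for all large `N`. For all
large `N` let `S N ⊆ {1, ..., X N}` be an arbitrary set with at least `X N / log ^ C₀ N` members, where
`(X N) ^ deg F ≥ N / log ^ C₀ N` and `|F| ≤ B N` on `S N`, let `g N : ℕ → ℝ` be arbitrary functions and let `K N n` be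
arbitrary sets of multipliers as before. Then the set of all real numbers `α` such that for infinitely many `N = 2 ^ i`
there is a real number `β` for which more than `|S N| / log ^ U N` of the `x ∈ S N` give a bad number
`α F(x) + g N x + β`, has Hausdorff dimension at most `σ`. -/
theorem result (s B C₀ T U : ℕ) (hB : 1 ≤ B) :
    (∃ C : ℕ, ∀ D : ℕ, ∃ E₀ : ℕ, ∀ E : ℕ, ∃ N₀ : ℕ, ∀ N : ℕ, N₀ ≤ N →
      ∀ z : ℕ, Real.log N ^ E₀ ≤ z → (z : ℝ) ≤ Real.log N ^ E →
      ∀ (Z : Type) [Fintype Z] (v : Z → ℤ), (∀ x, |v x| ≤ B * N) →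
      (energy s v : ℝ) * N ≤ Real.log N ^ C₀ * (Fintype.card Z : ℝ) ^ (2 * s) →
      ∀ (g : Z → ℝ) (K : ℕ → Finset ℕ), Adm B T N K →
      ∃ 𝓔 : Set ℝ, Small 𝓔 (Real.log N ^ C) (1 / Real.log N ^ D) ∧ ∀ α ∉ 𝓔, ∀ β : ℝ,
        (((univ : Finset Z).filter fun x => Bad B T U N z K (α * v x + g x + β)).card : ℝ) ≤
          Fintype.card Z / Real.log N ^ U) ∧
    (∀ F : ℤ[X], 1 ≤ F.natDegree → ∀ σ : ℝ≥0, 0 < σ → ∃ E₀ : ℕ, ∀ E : ℕ, ∀ z : ℕ → ℕ,
      (∀ᶠ N : ℕ in atTop, Real.log N ^ E₀ ≤ z N ∧ (z N : ℝ) ≤ Real.log N ^ E) →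
      ∀ (X : ℕ → ℕ) (S : ℕ → Finset ℕ),
      (∀ᶠ N : ℕ in atTop, S N ⊆ Icc 1 (X N) ∧ (X N : ℝ) ≤ Real.log N ^ C₀ * (S N).card ∧
        (N : ℝ) ≤ Real.log N ^ C₀ * (X N : ℝ) ^ F.natDegree ∧ ∀ x ∈ S N, |F.eval (x : ℤ)| ≤ B * N) →
      ∀ (g : ℕ → ℕ → ℝ) (K : ℕ → ℕ → Finset ℕ), (∀ᶠ N : ℕ in atTop, Adm B T N (K N)) →
      dimH {α : ℝ | ∃ᶠ i : ℕ in atTop, ∃ β : ℝ, ((S (2 ^ i)).card : ℝ) / Real.log ((2 ^ i : ℕ) : ℝ) ^ U <
        ((S (2 ^ i)).filter fun x : ℕ => Bad B T U (2 ^ i) (z (2 ^ i)) (K (2 ^ i))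
          (α * F.eval (x : ℤ) + g (2 ^ i) x + β)).card} ≤ σ) := by
  have part1 : ∀ s' C₀' : ℕ, ∃ C : ℕ, ∀ D : ℕ, ∃ E₀ : ℕ, ∀ E : ℕ, ∃ N₀ : ℕ, ∀ N : ℕ, N₀ ≤ N →
      ∀ z : ℕ, Real.log N ^ E₀ ≤ z → (z : ℝ) ≤ Real.log N ^ E →
      ∀ (Z : Type) [Fintype Z] (v : Z → ℤ), (∀ x, |v x| ≤ B * N) →
      (energy s' v : ℝ) * N ≤ Real.log N ^ C₀' * (Fintype.card Z : ℝ) ^ (2 * s') →
      ∀ (g : Z → ℝ) (K : ℕ → Finset ℕ), Adm B T N K →
      ∃ 𝓔 : Set ℝ, Pool.Agent.H96.FL.Cov 𝓔 (Real.log N ^ C) (1 / Real.log N ^ D) ∧ ∀ α ∉ 𝓔, ∀ β : ℝ,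
        (((univ : Finset Z).filter fun x => Bad B T U N z K (α * v x + g x + β)).card : ℝ) ≤
          Fintype.card Z / Real.log N ^ U := by
    intro s' C₀'
    obtain ⟨C, hC⟩ := Pool.Agent.H96.FL.primes_sets s' C₀' B T U hB
    refine ⟨C, fun D => ?_⟩
    obtain ⟨E₀, hE₀⟩ := hC D
    refine ⟨E₀, fun E => ?_⟩
    obtain ⟨N₀, hN₀⟩ := hE₀ E
    obtain ⟨n1, h1⟩ := Pool.Agent.H373R2.T7.ev_L' 1
    refine ⟨max N₀ n1, fun N hN z hz1 hz2 Z _ v hv hE g K hK => ?_⟩
    have hL1 := h1 N (le_trans (le_max_right _ _) hN)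
    obtain ⟨I, hI⟩ : ∃ I, I = Icc 1 ⌊Real.log N ^ T⌋₊ := ⟨_, rfl⟩
    have hIm : ∀ n, n ∈ I ↔ 1 ≤ n ∧ (n : ℝ) ≤ Real.log N ^ T := by
      intro n
      rw [hI, mem_Icc, Nat.le_floor_iff (by positivity)]
    have hIc : (I.card : ℝ) ≤ Real.log N ^ T := by
      rw [hI, Nat.card_Icc, Nat.add_sub_cancel]
      exact Nat.floor_le (by positivity)
    obtain ⟨𝓔, hE1, hE2⟩ := hN₀ N (le_trans (le_max_left _ _) hN) z hz1 hz2 Z v hv hE g ℕ I hIc
      (fun n => (K n).image fun k => p (k * n)) (by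
        intro n hn m hm
        rw [hIm] at hn
        obtain ⟨k, hk, rfl⟩ := mem_image.1 hm
        exact ⟨p_pos _, (hK n hn.1 hn.2 k hk).2⟩)
    refine ⟨𝓔, hE1, fun α hα β => ?_⟩
    refine le_trans ?_ (hE2 α hα β)
    apply Nat.cast_le.2
    apply card_le_card
    intro x hx
    rw [mem_filter] at hx ⊢
    obtain ⟨h2, n, hn1, hn2, H, hH1, hH2, hH3⟩ := hx
    refine ⟨h2, n, (hIm n).2 ⟨hn1, hn2⟩, H, hH1, hH2, hH3.trans_le ?_⟩
    apply Nat.cast_le.2
    rw [← Set.ncard_coe_finset]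
    apply Set.ncard_le_ncard _ (finite_toSet _)
    intro h hh
    obtain ⟨h3, h4, h5⟩ := hh
    rw [mem_coe, mem_filter, Pool.Agent.H96.FL.mem_win]
    refine ⟨h3, h4, ?_⟩
    rw [dif_eq z n hn1 (K n) (fun k hk => (hK n hn1 hn2 k hk).1) h]
    exact not_le.1 h5
  refine ⟨part1 s C₀, fun F hF σ hσ => ?_⟩
  obtain ⟨s', C', n1, h1⟩ := Pool.Agent.H96.LM.energy_poly_scale C₀ F hF
  obtain ⟨C, hC⟩ := part1 s' C'
  obtain ⟨D, hD⟩ : ∃ D : ℕ, ((C : ℝ) + 2) / σ ≤ D := exists_nat_ge _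
  have hσ' : (0 : ℝ) < σ := hσ
  obtain ⟨E₀, hE₀⟩ := hC (D + 1)
  refine ⟨E₀, fun E z hz X S hS g K hK => ?_⟩
  obtain ⟨N₀, hN₀⟩ := hE₀ E
  obtain ⟨n2, h2⟩ := eventually_atTop.1 hz
  obtain ⟨n3, hS⟩ := eventually_atTop.1 hS
  obtain ⟨n4, hK⟩ := eventually_atTop.1 hK
  obtain ⟨i₀, hi₀⟩ : ∃ i₀, i₀ = max (max (max N₀ n1) (max n2 2)) (max n3 n4) := ⟨_, rfl⟩
  have hi1 : ∀ i, i₀ ≤ 2 ^ (i + i₀) := by
    intro i
    have : i + i₀ < 2 ^ (i + i₀) := Nat.lt_two_pow_self
    omega
  have key : ∀ i : ℕ, ∃ 𝓔 : Set ℝ, Pool.Agent.H96.FL.Cov 𝓔 (Real.log ((2 ^ (i + i₀) : ℕ) : ℝ) ^ C)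
      (1 / Real.log ((2 ^ (i + i₀) : ℕ) : ℝ) ^ (D + 1)) ∧ ∀ α ∉ 𝓔, ∀ β : ℝ,
        (((S (2 ^ (i + i₀))).filter fun x : ℕ => Bad B T U (2 ^ (i + i₀)) (z (2 ^ (i + i₀))) (K (2 ^ (i + i₀)))
          (α * F.eval (x : ℤ) + g (2 ^ (i + i₀)) x + β)).card : ℝ) ≤
          ((S (2 ^ (i + i₀))).card : ℝ) / Real.log ((2 ^ (i + i₀) : ℕ) : ℝ) ^ U := by
    intro i
    obtain ⟨N, hN⟩ : ∃ N, N = 2 ^ (i + i₀) := ⟨_, rfl⟩
    rw [← hN]
    have hNi : i₀ ≤ N := by rw [hN]; exact hi1 i
    have b0 : N₀ ≤ N := by omega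
    have b1 : n1 ≤ N := by omega
    have b2 : n2 ≤ N := by omega
    obtain ⟨hz1, hz2⟩ := h2 N b2
    obtain ⟨hS1, hS2, hS3, hS4⟩ := hS N (by omega)
    have h3 := h1 N b1 1 (X N) (S N) hS1 hS2 (by rw [Nat.cast_one, mul_one]; exact hS3)
    rw [Nat.cast_one, mul_one] at h3
    obtain ⟨𝓔, hE1, hE2⟩ := hN₀ N b0 (z N) hz1 hz2 {n // n ∈ S N} (fun n => F.eval ((n : ℕ) : ℤ))
      (fun x => hS4 x x.2) h3 (fun n => g N n) (K N) (hK N (by omega))
    refine ⟨𝓔, hE1, fun α hα β => ?_⟩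
    have h4 := hE2 α hα β
    rw [Fintype.card_coe] at h4
    refine le_trans ?_ h4
    apply Nat.cast_le.2
    apply card_le_card_of_surjOn (fun x : {n // n ∈ S N} => (x : ℕ))
    intro x hx
    rw [mem_coe, mem_filter] at hx
    refine ⟨⟨x, hx.1⟩, ?_, rfl⟩
    rw [mem_coe, mem_filter]
    exact ⟨mem_univ _, hx.2⟩
  choose 𝓔 hE1 hE2 using key
  have h3 := Pool.Agent.H96.FL.dim_log 𝓔 C (D + 1) i₀ σ hσ (by
    rw [div_le_iff₀ hσ'] at hD
    push_cast
    nlinarith) (by omega) (by omega) hE1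
  refine le_trans (dimH_mono ?_) h3
  intro α hα
  rw [Set.mem_ofPred_eq] at hα ⊢
  rw [frequently_atTop] at hα ⊢
  intro a
  obtain ⟨b, hb1, β, hb2⟩ := hα (a + i₀)
  obtain ⟨i, rfl⟩ : ∃ i, b = i + i₀ := ⟨b - i₀, by omega⟩
  refine ⟨i, by omega, ?_⟩
  by_contra hcon
  have := hE2 i α hcon β
  linarith

end Pool.Agent.Results.MP_be93de_nt.GenericRealFactors
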