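import Pool.Agent.H96.PC.F
import Pool.Agent.H96.LM.E
import Pool.Agent.H96.BK.C

/-!
# Primes `p_{kn}` with index a multiple of `n` and with all `p_{kn} + h_i` prime, the differences `h_i` running through
# arbitrary thin subsets of residue classes to large moduli

The question asks for which `k` the number `p_{kn} + 2` is prime. Here the difference `2` is replaced by the integers
`h i` near `c i + q i * t i w`, where the moduli `q i` may be as large as
`N ^ (2 / 3 - ρ)`, without exception if `q i` has no divisor in a sparse set `D` of integers larger than `log ^ A N`,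
and (for most moduli) even as large as `N / log ^ e N`, and where `t i w` is an ARBITRARY finite family of integers with
an additive energy of some order which is minimal, at the scale `N / q i`, up to a power of the logarithm. Such a family
may consist of `(N / q i) ^ ε` integers only. For instance the `t i w` may be the values of a polynomial at an arbitrary
dense set of arguments (`c + q l ^ 2` with primes `l`), or products of members of several families, changed by arbitrary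
functions each of which does not depend on one of the members. The result holds simultaneously for all `n ≤ log ^ T N`
and for arbitrary sets `K n` of multipliers `k`.

Proof: the difference of the von Mangoldt function and its sieve model has small mean values over a whole residue class
(`Pool.Agent.Y883.T4`, by the dispersion method, for most moduli); this is combined, by Hölder's inequality and a
splitting of the circle according to the size of the exponential sum over the family, with the energy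
(`Pool.Agent.H96.PC`). The energies of the perturbed products are estimated with an inequality of the type of Gowers,
Cauchy and Schwarz (`Pool.Agent.H96.PR`).

From Mathlib: `Nat.nth Nat.Prime (n - 1)`: the `n`-th prime; `ℤ[X]`: the polynomials with integer coefficients;
`Fintype.piFinset E`: the product of the sets `E i`.
-/

set_option autoImplicit false

namespace Pool.Agent.Results.MP_be93de_nt.ThinDifferencesInClasses

open Finset Polynomial

/-- the `n`-th prime, `n ≥ 1` -/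
noncomputable def p (n : ℕ) : ℕ := Nat.nth Nat.Prime (n - 1)

/-- The additive energy of order `h` of a finite family of integers: the number of the solutions of
`v (i 1) + ... + v (i h) = v (j 1) + ... + v (j h)`. -/
noncomputable def energy (h : ℕ) {ι : Type} [Fintype ι] (v : ι → ℤ) : ℕ :=
  Nat.card {q : (Fin h → ι) × (Fin h → ι) // ∑ j, v (q.1 j) = ∑ j, v (q.2 j)}

/-- `f j x` does not depend on the coordinate `x j`, for all `j`; otherwise these functions are arbitrary. -/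
def Free {m : ℕ} {X : Fin m → Type} (f : Fin m → (∀ j, X j) → ℤ) : Prop :=
  ∀ (j : Fin m) (x x' : ∀ j, X j), (∀ t, t ≠ j → x t = x' t) → f j x = f j x'

/-- The product of the `a j (x j)`, changed by the sum of the `f j x`. -/
def val {m : ℕ} {X : Fin m → Type} (a : ∀ j, X j → ℤ) (f : Fin m → (∀ j, X j) → ℤ) (x : ∀ j, X j) : ℤ :=
  ∏ j, a j (x j) + ∑ j, f j x

/-- the number of the `k ∈ K` for which all the numbers `p_{kn} + h_i` are prime (they are positive in the theorem) -/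
noncomputable def count {r : ℕ} (n : ℕ) (h : Fin r → ℤ) (K : Finset ℕ) : ℕ :=
  (K.filter (fun k => ∀ i, ((p (k * n) : ℤ) + h i).toNat.Prime)).card

/-- the number of the `k ∈ K` for which none of the numbers `p_{kn} + h_i` has a prime factor `≤ z` -/
noncomputable def rough {r : ℕ} (n : ℕ) (h : Fin r → ℤ) (K : Finset ℕ) (z : ℕ) : ℕ :=
  (K.filter (fun k => ∀ q ∈ (Icc 1 z).filter Nat.Prime, ∀ i, ¬ (q : ℤ) ∣ (p (k * n) : ℤ) + h i)).card

/-- the prediction: the density of the primes among the integers of size `N` without prime factors `≤ z` is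
`1 / (log N ∏_{q ≤ z} (1 - 1/q))` -/
noncomputable def expected {r : ℕ} (n : ℕ) (h : Fin r → ℤ) (K : Finset ℕ) (z N : ℕ) : ℝ :=
  rough n h K z / (Real.log N * ∏ q ∈ (Icc 1 z).filter Nat.Prime, (1 - 1 / (q : ℝ))) ^ r

/-- The differences `h 1, ..., h r` are good: the number of the `k ∈ K` for which all the numbers `p_{kn} + h_i`
are prime is as predicted, up to `ε` times the prediction plus `N / (log N) ^ A`. -/
def Good {r : ℕ} (ε : ℝ) (A N z n : ℕ) (K : Finset ℕ) (h : Fin r → ℤ) : Prop :=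
  |(count n h K : ℝ) - expected n h K z N| ≤ ε * expected n h K z N + N / Real.log N ^ A

/-- For some `n ≤ log ^ T N`, `n ≥ 1`, there are integers `h 1, ..., h r` with `|h i - v i| ≤ log ^ W N` for all `i` which
are not good with the set `K n` of multipliers. -/
def Bad {r : ℕ} (ε : ℝ) (A T W N z : ℕ) (K : ℕ → Finset ℕ) (v : Fin r → ℤ) : Prop :=
  ∃ n : ℕ, 1 ≤ n ∧ (n : ℝ) ≤ Real.log N ^ T ∧
    ∃ h : Fin r → ℤ, (∀ i, |(h i : ℝ) - v i| ≤ Real.log N ^ W) ∧ ¬ Good ε A N z n (K n) h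

/-- The sets `K n` of multipliers and the families `v i`, `i ≤ r`: the multipliers are positive, `p_{kn} ≤ B N` for all
`k ∈ K n`, the members of the families are at most `B N` in absolute value, and `p_{kn} + v i w` is larger than
`log ^ W N`, for all `k ∈ K n`, all `w`, and all positive integers `n ≤ log ^ T N`. -/
def Adm {r : ℕ} (B T W N : ℕ) (K : ℕ → Finset ℕ) {Z : Fin r → Type} (v : ∀ i, Z i → ℤ) : Prop :=
  (∀ i w, |v i w| ≤ B * N) ∧
  ∀ n : ℕ, 1 ≤ n → (n : ℝ) ≤ Real.log N ^ T → ∀ k ∈ K n, 1 ≤ k ∧ p (k * n) ≤ B * N ∧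
    ∀ i w, Real.log N ^ W < (((p (k * n) : ℤ) + v i w : ℤ) : ℝ)

/-- The moduli: `Q` is a set of moduli `1 ≤ q ≤ N`, `D` is a set of integers larger than `log ^ A N` with at most `X ^ ρ`
members up to `X`, for every `X ≥ 1`; every `q ≤ N ^ (2 / 3 - ρ)` without a divisor in `D` belongs to `Q`, and for every
`X ≤ N` at most `(X ^ 2 / N) log ^ e N` moduli `q ≤ X` without a divisor in `D` do not belong to `Q`. -/
def Moduli (ρ : ℝ) (A e N : ℕ) (D Q : Finset ℕ) : Prop :=
  (∀ q ∈ Q, 1 ≤ q ∧ q ≤ N) ∧ (∀ d ∈ D, Real.log N ^ A < (d : ℝ)) ∧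
  (∀ X : ℝ, 1 ≤ X → ((D.filter (fun d : ℕ => (d : ℝ) ≤ X)).card : ℝ) ≤ X ^ ρ) ∧
  (∀ q : ℕ, 1 ≤ q → (q : ℝ) ≤ (N : ℝ) ^ (2 / 3 - ρ) → (∀ d ∈ D, ¬ d ∣ q) → q ∈ Q) ∧
  ∀ X : ℕ, X ≤ N → (((Icc 1 X).filter (fun q => (∀ d ∈ D, ¬ d ∣ q) ∧ q ∉ Q)).card : ℝ) * N ≤ (X : ℝ) ^ 2 * Real.log N ^ e

open Classical in
/-- the conclusion for arbitrary families -/
def Concl (ε : ℝ) (h A B C T W N z r : ℕ) (Q : Finset ℕ) : Prop :=
  ∀ q : Fin r → ℕ, (∀ i, q i ∈ Q) → ∀ (c : Fin r → ℤ) (Z : Fin r → Type) [∀ i, Fintype (Z i)] (t : ∀ i, Z i → ℤ),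
    (∀ i, (energy h (t i) : ℝ) * N ≤ Real.log N ^ C * q i * (Fintype.card (Z i) : ℝ) ^ (2 * h)) →
    ∀ K : ℕ → Finset ℕ, Adm B T W N K (fun i w => c i + q i * t i w) →
    (((univ : Finset (∀ i, Z i)).filter (fun w => Bad ε A T W N z K (fun i => c i + q i * t i (w i)))).card : ℝ) ≤
      Fintype.card (∀ i, Z i) / Real.log N ^ A

lemma p_pos (n : ℕ) : 1 ≤ p n := (Nat.prime_nth_prime (n - 1)).pos

lemma p_inj {n n' : ℕ} (h1 : 1 ≤ n) (h2 : 1 ≤ n') (h : p n = p n') : n = n' := by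
  have h3 := Nat.nth_injective Nat.infinite_setOfPred_prime h
  omega

lemma good_of {r : ℕ} (ε : ℝ) (A N z n : ℕ) (K : Finset ℕ) (h s : Fin r → ℤ)
    (hL1 : 1 ≤ Real.log (N : ℝ)) (e0 : ∀ i, s i = h i)
    (h5 : |(Pool.Agent.K7.H49.LT.cntD (fun _ k => p (k * n)) s K : ℝ) * Real.log N ^ r -
      Pool.Agent.K7.H49.LT.SfD (fun _ k => p (k * n)) s K z| ≤
      ε * Pool.Agent.K7.H49.LT.SfD (fun _ k => p (k * n)) s K z + N / Real.log N ^ A) : Good ε A N z n K h := by
  obtain rfl : s = h := funext e0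
  have e1 : Pool.Agent.K7.H49.LT.cntD (fun _ k => p (k * n)) s K = count n s K := rfl
  have e2 : Pool.Agent.K7.H49.LT.SfD (fun _ k => p (k * n)) s K z = (Pool.Agent.H373R2.T7.Vz z)⁻¹ ^ r *
      rough n s K z := rfl
  rw [e1, e2] at h5
  have hV : Pool.Agent.H373R2.T7.Vz z = ∏ q ∈ (Icc 1 z).filter Nat.Prime, (1 - 1 / (q : ℝ)) := rfl
  obtain ⟨L, hL⟩ : ∃ L, L = Real.log (N : ℝ) := ⟨_, rfl⟩
  unfold Good
  have e3 : expected n s K z N = ((Pool.Agent.H373R2.T7.Vz z)⁻¹ ^ r * rough n s K z) / Real.log N ^ r := by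
    unfold expected
    rw [← hV, mul_pow]
    ring
  rw [e3]
  rw [← hL] at h5 hL1 ⊢
  have hL0 : 0 < L := by linarith
  set M := L ^ r with hM
  have hM1 : 1 ≤ M := one_le_pow₀ hL1
  have hM0 : 0 < M := by linarith
  set y := (Pool.Agent.H373R2.T7.Vz z)⁻¹ ^ r * (rough n s K z : ℝ)
  set ct := (count n s K : ℝ)
  have e4 : ct - y / M = (ct * M - y) / M := by field_simp
  rw [e4, abs_div, abs_of_pos hM0, div_le_iff₀ hM0]
  refine h5.trans ?_
  have hn : (0 : ℝ) ≤ N / L ^ A := by positivity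
  have e5 : ε * (y / M) * M = ε * y := by field_simp
  rw [add_mul, e5]
  nlinarith

open Classical in
/-- tuples from arbitrary families of small energy -/
lemma general (r h A B C T W : ℕ) (ε ρ : ℝ) (hε : 0 < ε) (hρ : 0 < ρ) :
    ∃ D₀ e : ℕ, ∀ E : ℕ, ∃ N₀ : ℕ, ∀ N : ℕ, N₀ ≤ N → ∀ z : ℕ, Real.log N ^ D₀ ≤ z → (z : ℝ) ≤ Real.log N ^ E →
      ∃ D Q : Finset ℕ, Moduli ρ A e N D Q ∧ Concl ε h A B C T W N z r Q := by
  obtain ⟨A', hA'⟩ : ∃ A', A' = A + T := ⟨_, rfl⟩
  obtain ⟨A₁, h1⟩ := Pool.Agent.H96.PC.tuples_pr_win r (h + 1) A' W B C ε hε (by omega)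
  obtain ⟨D₀, e, h2⟩ := Pool.Agent.H96.PC.moduliF (2 * (B + 1) + 4) A A₁ (by omega) ρ hρ
  refine ⟨D₀, e, fun E => ?_⟩
  obtain ⟨N₁, h1⟩ := h1 E
  obtain ⟨N₂, h2⟩ := h2 E
  obtain ⟨N₃, h3⟩ := Pool.Agent.H373R2.T7.ev_L' 2
  refine ⟨N₁ + N₂ + N₃ + 1, fun N hN z hz1 hz2 => ?_⟩
  have hL2 := h3 N (by omega)
  have hL1 : 1 ≤ Real.log (N : ℝ) := by linarith
  have hNpos : (1 : ℝ) ≤ N := by exact_mod_cast (by omega : 1 ≤ N)
  have hz1' : 1 ≤ z := by
    have : (1 : ℝ) ≤ z := (one_le_pow₀ hL1).trans hz1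
    exact_mod_cast this
  obtain ⟨f, D, hf1, hf2, hD1, hD2, hD3, hD4⟩ := h2 N (by omega) z hz1 hz2
  obtain ⟨Q, hQ⟩ : ∃ Q : Finset ℕ, Q = (Icc 1 N).filter
    (fun q => ¬ Pool.Agent.Y883.T4.BadF f ((2 * (B + 1) + 4) * N) A₁ q) := ⟨_, rfl⟩
  have hQm : ∀ q, q ∈ Q ↔ (1 ≤ q ∧ q ≤ N) ∧ ¬ Pool.Agent.Y883.T4.BadF f ((2 * (B + 1) + 4) * N) A₁ q := by
    intro q
    rw [hQ, mem_filter, mem_Icc]
  refine ⟨D, Q, ⟨?_, hD1, hD2, ?_, ?_⟩, ?_⟩
  · intro q hq
    exact ((hQm q).1 hq).1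
  · intro q hq1 hq2 hq3
    refine (hQm q).2 ⟨⟨hq1, ?_⟩, hD3 q hq1 hq2 hq3⟩
    have h4 : (q : ℝ) ≤ N := by
      refine hq2.trans ?_
      calc (N : ℝ) ^ (2 / 3 - ρ) ≤ (N : ℝ) ^ (1 : ℝ) := Real.rpow_le_rpow_of_exponent_le hNpos (by linarith)
        _ = N := Real.rpow_one _
    exact_mod_cast h4
  · intro X hX
    refine hD4 X hX _ ?_
    intro q hq
    rw [mem_filter, mem_Icc] at hq
    refine ⟨hq.1.1, hq.1.2, hq.2.1, ?_⟩
    by_contra hcon
    exact hq.2.2 ((hQm q).2 ⟨⟨hq.1.1, by omega⟩, hcon⟩)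
  · intro q hq c Z _ t hE K hadm
    obtain ⟨ha1, ha2⟩ := hadm
    obtain ⟨V, hV⟩ : ∃ V : ℕ, V = ⌊Real.log N ^ W⌋₊ := ⟨_, rfl⟩
    have hfl : (⌊Real.log N ^ W⌋₊ : ℝ) ≤ Real.log N ^ W := Nat.floor_le (by positivity)
    have hVr : (V : ℝ) ≤ Real.log N ^ W := by rw [hV]; exact hfl
    have hLT : (0 : ℝ) < Real.log N ^ T := by positivity
    obtain ⟨J, hJ⟩ : ∃ J : Finset ℕ, J = Icc 1 ⌊Real.log N ^ T⌋₊ := ⟨_, rfl⟩
    have hJc : (J.card : ℝ) ≤ Real.log N ^ T := by
      rw [hJ, Nat.card_Icc, Nat.add_sub_cancel]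
      exact Nat.floor_le hLT.le
    have hJm : ∀ n, n ∈ J ↔ 1 ≤ n ∧ (n : ℝ) ≤ Real.log N ^ T := by
      intro n
      rw [hJ, mem_Icc, Nat.le_floor_iff hLT.le]
    obtain ⟨bad, hbad⟩ : ∃ bad : ℕ → (∀ i, Z i) → Prop, bad = fun n w => ∃ h : Fin r → ℤ,
      (∀ i, |(h i : ℝ) - (c i + q i * t i (w i) : ℤ)| ≤ Real.log N ^ W) ∧ ¬ Good ε A N z n (K n) h := ⟨_, rfl⟩
    have hone : ∀ n ∈ J, (((univ : Finset (∀ i, Z i)).filter (bad n)).card : ℝ) ≤
        Fintype.card (∀ i, Z i) / Real.log N ^ A' := by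
      intro n hn
      rw [hJm] at hn
      have ha3 := ha2 n hn.1 hn.2
      refine h1 N (by omega) z hz1' hz2 f hf1 hf2 q (fun i => ⟨((hQm _).1 (hq i)).1.1, ((hQm _).1 (hq i)).1.2, ((hQm _).1 (hq i)).2⟩)
        c Z t ha1 ?_ (K n) (fun _ k => p (k * n)) V hVr ?_ ?_ ?_ (bad n) ?_
      · intro i
        exact Pool.Agent.H96.BK.lift_order (t i) h (h + 1) C C N (q i) (by omega) le_rfl hL1 (hE i)
      · intro i k hk
        exact ⟨p_pos _, (ha3 k hk).2.1⟩
      · intro i k hk k' hk' hne h6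
        apply hne
        have h7 := (ha3 k hk).1
        have h8 := (ha3 k' hk').1
        have h9 := p_inj (Nat.mul_pos h7 hn.1) (Nat.mul_pos h8 hn.1) h6
        exact Nat.eq_of_mul_eq_mul_right hn.1 h9
      · intro i w k hk
        have h4 := (ha3 k hk).2.2 i w
        have h5 : (V : ℝ) < (((p (k * n) : ℤ) + (c i + q i * t i w) : ℤ) : ℝ) := lt_of_le_of_lt hVr h4
        exact_mod_cast h5
      · intro w hw
        rw [hbad] at hw
        obtain ⟨b, hb, hgood⟩ := hw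
        refine ⟨fun i => b i - (c i + q i * t i (w i)), fun i => ?_, fun h5 => hgood ?_⟩
        · have h4 := hb i
          have h5 : (((b i - (c i + q i * t i (w i))).natAbs : ℕ) : ℝ) ≤ Real.log N ^ W := by
            rw [Nat.cast_natAbs, Int.cast_abs]
            push_cast at h4 ⊢
            exact h4
          have h6 : (b i - (c i + q i * t i (w i))).natAbs ≤ ⌊Real.log N ^ W⌋₊ := Nat.le_floor h5
          show |b i - (c i + q i * t i (w i))| ≤ (V : ℤ)
          rw [hV]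
          have h7 : |b i - (c i + q i * t i (w i))| = ((b i - (c i + q i * t i (w i))).natAbs : ℤ) := by
            rw [Int.natCast_natAbs]
          rw [h7]
          exact_mod_cast h6
        · have h6 : (N : ℝ) / Real.log N ^ A' ≤ N / Real.log N ^ A := by
            apply div_le_div_of_nonneg_left (by positivity) (by positivity)
            exact pow_le_pow_right₀ hL1 (by omega)
          refine good_of ε A N z n (K n) b _ hL1 (fun i => ?_) (h5.trans (by linarith))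
          ring
    have hsub : (univ : Finset (∀ i, Z i)).filter (fun w => Bad ε A T W N z K (fun i => c i + q i * t i (w i))) ⊆
        J.biUnion (fun n => (univ : Finset (∀ i, Z i)).filter (bad n)) := by
      intro w hw
      rw [mem_filter] at hw
      obtain ⟨n, hn1, hn2, b, hb, hg⟩ := hw.2
      rw [mem_biUnion]
      refine ⟨n, (hJm n).2 ⟨hn1, hn2⟩, ?_⟩
      rw [mem_filter, hbad]
      exact ⟨mem_univ _, b, hb, hg⟩
    calc (((univ : Finset (∀ i, Z i)).filter (fun w => Bad ε A T W N z K (fun i => c i + q i * t i (w i)))).card : ℝ)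
        ≤ ((J.biUnion (fun n => (univ : Finset (∀ i, Z i)).filter (bad n))).card : ℝ) := by
          exact_mod_cast card_le_card hsub
      _ ≤ ∑ n ∈ J, (((univ : Finset (∀ i, Z i)).filter (bad n)).card : ℝ) := by
          exact_mod_cast card_biUnion_le
      _ ≤ ∑ _n ∈ J, Fintype.card (∀ i, Z i) / Real.log N ^ A' := sum_le_sum hone
      _ = J.card * (Fintype.card (∀ i, Z i) / Real.log N ^ A') := by rw [sum_const, nsmul_eq_mul]
      _ ≤ Real.log N ^ T * (Fintype.card (∀ i, Z i) / Real.log N ^ A') :=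
          mul_le_mul_of_nonneg_right hJc (by positivity)
      _ = Fintype.card (∀ i, Z i) / Real.log N ^ A := by
          rw [hA', pow_add]
          have : Real.log (N : ℝ) ≠ 0 := by positivity
          field_simp

open Classical in
/-- Let `r`, `A`, `B`, `C`, `T`, `W` be natural numbers and `ε, ρ > 0`. The following three statements hold.

(1) For every `h` there are `D₀`, `e` such that for all `E`, all large `N` and all integers `z` with
`log ^ D₀ N ≤ z ≤ log ^ E N` there are a sparse set `D` and a set `Q` of moduli as in `Moduli`: `Q` contains all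
`q ≤ N ^ (2 / 3 - ρ)` without a divisor in `D`, and for every `X ≤ N` all but `(X ^ 2 / N) log ^ e N` of the moduli `q ≤ X`
without a divisor in `D`; the members of `D` are larger than `log ^ A N`, and at most `X ^ ρ` of them are at most `X`. For
all moduli `q 1, ..., q r` in `Q`, all integers `c 1, ..., c r` and ALL finite families `t i : Z i → ℤ`, `i = 1, ..., r`,
the additive energies of order `h` of which are at most `log ^ C N` times `|Z i| ^ (2 h) / (N / q i)`, the smallest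
possible value up to the logarithms, and for ALL sets `K n`, `n ≤ log ^ T N`, of positive integers `k` with
`p_{kn} ≤ B N` (and `p_{kn} + c i + q i t i w > log ^ W N`) the following holds: for all `w = (w 1, ..., w r)` with at
most `1 / log ^ A N` times the number of all of them as exceptions, ALL integers `h 1, ..., h r` with
`|h i - (c i + q i t i (w i))| ≤ log ^ W N` are good for ALL positive integers `n ≤ log ^ T N`: the number of the `k ∈ K n`
for which all `p_{kn} + h_i` are prime is the number of the `k ∈ K n` for which none of them has a prime factor `≤ z`,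
divided by `(log N ∏_{q ≤ z} (1 - 1/q)) ^ r`, up to `ε` times this quantity plus `N / log ^ A N`.

(2) The same holds for `t i (x) = a i 1 (x 1) ⋯ a i m (x m) + f i 1 (x) + ... + f i m (x)`, `m ≥ 2`, where the
`a i j : Y i j → ℤ` are any finite families of integers with `|a i j| ≤ M i j`, `N ^ δ ≤ M i j ≤ N ^ B`,
`∏ j, M i j ≥ (N / q i) / log ^ C N`, whose energies of order `h` are at most `log ^ C N` times
`|Y i j| ^ (2 h) / M i j`, and the `f i j` are ARBITRARY integer valued functions such that `f i j (x)` does not depend on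
`x j`.

(3) The same holds for `t i (n) = R i (n)`, `n ∈ F i`, where the `R i` are fixed nonconstant polynomials with integer
coefficients and `F i ⊆ {1, ..., X i}` are arbitrary sets with at least `X i / log ^ C N` elements (for instance: the
primes), where `X i ^ deg (R i) ≥ (N / q i) / log ^ C N`. -/
theorem result (r : ℕ) (A B C T W : ℕ) (ε ρ : ℝ) (hε : 0 < ε) (hρ : 0 < ρ) :
    (∀ h : ℕ, ∃ D₀ e : ℕ, ∀ E : ℕ, ∃ N₀ : ℕ, ∀ N : ℕ, N₀ ≤ N → ∀ z : ℕ, Real.log N ^ D₀ ≤ z → (z : ℝ) ≤ Real.log N ^ E →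
      ∃ D Q : Finset ℕ, Moduli ρ A e N D Q ∧
      ∀ q : Fin r → ℕ, (∀ i, q i ∈ Q) → ∀ (c : Fin r → ℤ) (Z : Fin r → Type) [∀ i, Fintype (Z i)] (t : ∀ i, Z i → ℤ),
      (∀ i, (energy h (t i) : ℝ) * N ≤ Real.log N ^ C * q i * (Fintype.card (Z i) : ℝ) ^ (2 * h)) →
      ∀ K : ℕ → Finset ℕ, Adm B T W N K (fun i w => c i + q i * t i w) →
      (((univ : Finset (∀ i, Z i)).filter (fun w => Bad ε A T W N z K (fun i => c i + q i * t i (w i)))).card : ℝ) ≤
        Fintype.card (∀ i, Z i) / Real.log N ^ A) ∧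
    (∀ m h : ℕ, 2 ≤ m → ∀ δ : ℝ, 0 < δ → ∃ D₀ e : ℕ, ∀ E : ℕ, ∃ N₀ : ℕ, ∀ N : ℕ, N₀ ≤ N → ∀ z : ℕ,
      Real.log N ^ D₀ ≤ z → (z : ℝ) ≤ Real.log N ^ E → ∃ D Q : Finset ℕ, Moduli ρ A e N D Q ∧
      ∀ q : Fin r → ℕ, (∀ i, q i ∈ Q) → ∀ (c : Fin r → ℤ) (Y : Fin r → Fin m → Type) [∀ i j, Fintype (Y i j)]
      (a : ∀ i j, Y i j → ℤ) (M : Fin r → Fin m → ℕ),
      (∀ i j x, |a i j x| ≤ M i j) → (∀ i j, (N : ℝ) ^ δ ≤ M i j ∧ M i j ≤ N ^ B) →
      (∀ i, (N : ℝ) ≤ Real.log N ^ C * q i * ∏ j, (M i j : ℝ)) →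
      (∀ i j, (energy h (a i j) : ℝ) * M i j ≤ Real.log N ^ C * (Fintype.card (Y i j) : ℝ) ^ (2 * h)) →
      ∀ f : ∀ i, Fin m → (∀ j, Y i j) → ℤ, (∀ i, Free (f i)) →
      ∀ K : ℕ → Finset ℕ, Adm B T W N K (fun i x => c i + q i * val (a i) (f i) x) →
      (((univ : Finset (∀ i j, Y i j)).filter
        (fun x => Bad ε A T W N z K (fun i => c i + q i * val (a i) (f i) (x i)))).card : ℝ) ≤
        Fintype.card (∀ i j, Y i j) / Real.log N ^ A) ∧
    (∀ R : Fin r → ℤ[X], (∀ i, 1 ≤ (R i).natDegree) →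
      ∃ D₀ e : ℕ, ∀ E : ℕ, ∃ N₀ : ℕ, ∀ N : ℕ, N₀ ≤ N → ∀ z : ℕ, Real.log N ^ D₀ ≤ z → (z : ℝ) ≤ Real.log N ^ E →
      ∃ D Q : Finset ℕ, Moduli ρ A e N D Q ∧
      ∀ q : Fin r → ℕ, (∀ i, q i ∈ Q) → ∀ (c : Fin r → ℤ) (X : Fin r → ℕ) (F : Fin r → Finset ℕ),
      (∀ i, F i ⊆ Icc 1 (X i) ∧ (X i : ℝ) ≤ Real.log N ^ C * (F i).card) →
      (∀ i, (N : ℝ) ≤ Real.log N ^ C * q i * (X i : ℝ) ^ (R i).natDegree) →
      ∀ K : ℕ → Finset ℕ, Adm B T W N K (fun i (n : {n // n ∈ F i}) => c i + q i * (R i).eval ((n : ℕ) : ℤ)) →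
      (((Fintype.piFinset F).filter (fun n => Bad ε A T W N z K (fun i => c i + q i * (R i).eval (n i : ℤ)))).card : ℝ) ≤
        (∏ i, ((F i).card : ℝ)) / Real.log N ^ A) := by
  refine ⟨fun h => general r h A B C T W ε ρ hε hρ, fun m h hm δ hδ => ?_, fun R hR => ?_⟩
  · obtain ⟨m, rfl⟩ : ∃ m', m = m' + 2 := ⟨m - 2, by omega⟩
    obtain ⟨H, C', N₁, hH, h1⟩ := Pool.Agent.H96.LM.energy_scale m C B h δ hδ
    obtain ⟨D₀, e, h2⟩ := general r H A B C' T W ε ρ hε hρ
    refine ⟨D₀, e, fun E => ?_⟩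
    obtain ⟨N₂, h2⟩ := h2 E
    refine ⟨N₁ + N₂, fun N hN z hz1 hz2 => ?_⟩
    obtain ⟨D, Q, hDQ, hc⟩ := h2 N (by omega) z hz1 hz2
    refine ⟨D, Q, hDQ, ?_⟩
    intro q hq c Y _ a M ha hM hNM hE f hf K hv
    exact hc q hq c (fun i => ∀ j, Y i j) (fun i => val (a i) (f i))
      (fun i => h1 N (by omega) (q i) (Y i) (a i) (M i) (f i) (hM i) (ha i) (hE i) (hNM i) (hf i)) K hv
  · choose H C' N₁ h1 using fun i => Pool.Agent.H96.LM.energy_poly_scale C (R i) (hR i)
    obtain ⟨H', hH'⟩ : ∃ H' : ℕ, ∀ i, H i ≤ H' := ⟨∑ i, H i, fun i => single_le_sum (f := H) (fun _ _ => Nat.zero_le _) (mem_univ i)⟩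
    obtain ⟨C'', hC''⟩ : ∃ C'' : ℕ, ∀ i, C' i ≤ C'' := ⟨∑ i, C' i, fun i => single_le_sum (f := C') (fun _ _ => Nat.zero_le _) (mem_univ i)⟩
    obtain ⟨D₀, e, h2⟩ := general r H' A B C'' T W ε ρ hε hρ
    refine ⟨D₀, e, fun E => ?_⟩
    obtain ⟨N₂, h2⟩ := h2 E
    obtain ⟨N₃, h3⟩ := Pool.Agent.H373R2.T7.ev_L' 1
    refine ⟨∑ i, N₁ i + N₂ + N₃, fun N hN z hz1 hz2 => ?_⟩
    have hL1 := h3 N (by omega)
    have hN₁ : ∀ i, N₁ i ≤ N := by
      intro i
      have : N₁ i ≤ ∑ i, N₁ i := single_le_sum (f := N₁) (fun _ _ => Nat.zero_le _) (mem_univ i)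
      omega
    obtain ⟨D, Q, hDQ, hc⟩ := h2 N (by omega) z hz1 hz2
    refine ⟨D, Q, hDQ, ?_⟩
    intro q hq c X F hF hX K hv
    have key : ∀ i, (Pool.Agent.TH935.GF.En H' (fun n : {n // n ∈ F i} => (R i).eval ((n : ℕ) : ℤ)) : ℝ) * N ≤
        Real.log N ^ C'' * q i * (Fintype.card {n // n ∈ F i} : ℝ) ^ (2 * H') := by
      intro i
      apply Pool.Agent.H96.BK.lift_order _ (H i) H' (C' i) C'' N (q i) (hH' i) (hC'' i) hL1
      exact h1 i N (hN₁ i) (q i) (X i) (F i) (hF i).1 (hF i).2 (hX i)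
    have h4 := hc q hq c (fun i => {n // n ∈ F i}) (fun i n => (R i).eval ((n : ℕ) : ℤ)) key K hv
    have e1 : (Fintype.card (∀ i, {n // n ∈ F i}) : ℝ) = ∏ i, ((F i).card : ℝ) := by
      rw [Fintype.card_pi]
      push_cast
      exact prod_congr rfl fun j _ => by rw [Fintype.card_coe]
    rw [e1] at h4
    refine le_trans ?_ h4
    rw [Nat.cast_le]
    apply card_le_card_of_surjOn (fun x i => ((x i : {n // n ∈ F i}) : ℕ))
    intro x hx
    rw [mem_coe, mem_filter, Fintype.mem_piFinset] at hx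
    refine ⟨fun i => ⟨x i, hx.1 i⟩, ?_, rfl⟩
    rw [mem_coe, mem_filter]
    exact ⟨mem_univ _, hx.2⟩

end Pool.Agent.Results.MP_be93de_nt.ThinDifferencesInClasses
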